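import Mathlib
import Pool.Agent.H4.FKS.Full
import Pool.Agent.H4.FKS.ThreeClique2
import Pool.Agent.H70.FKS.StepThree

/-!
# The Füredi-Kahn-Seymour theorem: sampling form and demands
-/

set_option autoImplicit false

namespace Pool.Agent.H66.FKS

open Finset H34.FKS H84.FKS H90.FKS

variable {V E : Type} [Fintype V] [DecidableEq V] [Fintype E] [DecidableEq E]

/-- The sampling form: a random matching containing `e` with probability `x e / (|e| - 1 + 1/|e|)`. -/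
theorem sampling (H : E → Finset V) (hne : ∀ e, (H e).Nonempty) (x : E → ℝ) (hx : ∀ e, 0 ≤ x e)
    (hdeg : ∀ v, ∑ f with v ∈ H f, x f ≤ 1) :
    H4.FKS.Real (fun e f => ¬ Disjoint (H e) (H f)) univ (fun e => x e / ck (H e).card) := by
  have h3 : ∀ x : E → ℝ, (∀ e, 0 ≤ x e) → (∀ v, ∑ f with v ∈ H f, x f ≤ 1) → HasSDR H x →
      Lvl H x (kap3 H x) 3 := fun x hx hdeg hsdr =>
    H70.FKS.lvl_three H4.FKS.clique_three hne hx hdeg hsdr
  have h2 : ∀ x : E → ℝ, (∀ e, 0 ≤ x e) → (∀ v, ∑ f with v ∈ H f, x f ≤ 1) → HasSDR H x →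
      Lvl H x (fun _ => 0) 2 := fun x hx hdeg hsdr =>
    lvl_two_of_lvl_three hne hx hdeg hsdr (h3 x hx hdeg hsdr)
  exact real_of_sdr H hne ck
    (fun x hx hdeg hsdr => H4.FKS.real_of_lvl_two hne hx hdeg (h2 x hx hdeg hsdr) univ) x hx hdeg

/-- The sampling form, spelled out. -/
theorem sampling' (H : E → Finset V) (hne : ∀ e, (H e).Nonempty) (x : E → ℝ) (hx : ∀ e, 0 ≤ x e)
    (hdeg : ∀ v, ∑ f with v ∈ H f, x f ≤ 1) :
    ∃ w : Finset E → ℝ, (∀ M, 0 ≤ w M) ∧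
      (∀ M, w M ≠ 0 → ∀ e ∈ M, ∀ f ∈ M, e ≠ f → Disjoint (H e) (H f)) ∧
      ∑ M, w M = 1 ∧
      ∀ e, ∑ M with e ∈ M, w M = x e / (((H e).card : ℝ) - 1 + 1 / ((H e).card : ℝ)) := by
  obtain ⟨w, hw0, hws, hw1, hwm⟩ := sampling H hne x hx hdeg
  refine ⟨w, hw0, fun M hM e he f hf hef => ?_, hw1, fun e => hwm e (mem_univ e)⟩
  exact not_not.1 ((hws M hM).1 e he f hf hef)

/-- The weighted form. -/
theorem weighted (H : E → Finset V) (hne : ∀ e, (H e).Nonempty) (x : E → ℝ) (hx : ∀ e, 0 ≤ x e)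
    (hdeg : ∀ v, ∑ f with v ∈ H f, x f ≤ 1) (c : E → ℝ) :
    ∃ M : Finset E, (∀ e ∈ M, ∀ f ∈ M, e ≠ f → Disjoint (H e) (H f)) ∧
      ∑ e, x e * c e ≤ ∑ e ∈ M, (((H e).card : ℝ) - 1 + 1 / ((H e).card : ℝ)) * c e :=
  (H4.FKS.fks_of_lvl_three H hne
    (fun _ hx hdeg hsdr => H70.FKS.lvl_three H4.FKS.clique_three hne hx hdeg hsdr)).2 x hx hdeg c

/-- The form with demands. -/
theorem demands (H : E → Finset V) (hne : ∀ e, (H e).Nonempty) (p : E → ℝ) (hp : ∀ e, 0 ≤ p e) :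
    ∃ w : Finset E → ℝ, (∀ M, 0 ≤ w M) ∧
      (∀ M, w M ≠ 0 → ∀ e ∈ M, ∀ f ∈ M, e ≠ f → Disjoint (H e) (H f)) ∧
      (∀ e, ∑ M with e ∈ M, w M = p e) ∧
      ∑ M, w M = ⨆ v : V, ∑ e with v ∈ H e,
        (((H e).card : ℝ) - 1 + 1 / ((H e).card : ℝ)) * p e := by
  have hcard : ∀ e, 1 ≤ (H e).card := fun e => card_pos.2 (hne e)
  have hg : ∀ e, 0 < ((H e).card : ℝ) - 1 + 1 / ((H e).card : ℝ) := fun e => ck_pos (hcard e)
  set g : E → ℝ := fun e => ((H e).card : ℝ) - 1 + 1 / ((H e).card : ℝ) with hgdef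
  set D : ℝ := ⨆ v : V, ∑ e with v ∈ H e, g e * p e with hD
  have hDle : ∀ v : V, ∑ e with v ∈ H e, g e * p e ≤ D := fun v =>
    le_ciSup (f := fun v : V => ∑ e with v ∈ H e, g e * p e) (Set.finite_range _).bddAbove v
  have hD0 : 0 ≤ D := Real.iSup_nonneg fun v => sum_nonneg fun e _ => mul_nonneg (hg e).le (hp e)
  rcases hD0.eq_or_lt with h0 | h0
  · -- all demands vanish
    have hp0 : ∀ e, p e = 0 := by
      intro e
      obtain ⟨v, hv⟩ := hne e
      have h1 : g e * p e ≤ ∑ f with v ∈ H f, g f * p f :=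
        single_le_sum (f := fun f => g f * p f) (fun f _ => mul_nonneg (hg f).le (hp f))
          (by simp [hv])
      have h2 := h1.trans (hDle v)
      rw [← h0] at h2
      have h3 := mul_nonneg (hg e).le (hp e)
      have h4 : g e * p e = 0 := le_antisymm h2 h3
      exact (mul_eq_zero.1 h4).resolve_left (hg e).ne'
    refine ⟨fun _ => 0, fun _ => le_rfl, fun M hM => absurd rfl hM, fun e => ?_, ?_⟩
    · rw [hp0 e]; simp
    · rw [← h0]; simp
  · obtain ⟨w, hw0, hws, hw1, hwm⟩ := sampling' H hne (fun e => g e * p e / D)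
      (fun e => div_nonneg (mul_nonneg (hg e).le (hp e)) h0.le) (fun v => by
        rw [← sum_div, div_le_one h0]
        exact hDle v)
    refine ⟨fun M => D * w M, fun M => mul_nonneg h0.le (hw0 M), fun M hM => ?_, fun e => ?_, ?_⟩
    · exact hws M fun h => hM (by show D * w M = 0; rw [h, mul_zero])
    · rw [← mul_sum, hwm e]
      change D * (g e * p e / D / g e) = p e
      have h1 : g e ≠ 0 := (hg e).ne'
      have h2 := h0.ne'
      field_simp
    · rw [← mul_sum, hw1, mul_one]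

end Pool.Agent.H66.FKS
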